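import Pool.Agent.H60.HRb

set_option autoImplicit false

namespace Pool.Agent.Results.MP_21018d_co.NotConn

open Pool.Agent.H60.HR

theorem result (n : ℕ) (hn : 2 ≤ n) : ∃ a ∈ HRexp n, a ∉ HRC n := by
  obtain ⟨m, rfl⟩ : ∃ m, n = m + 2 := ⟨n - 2, by omega⟩
  refine ⟨80 :: List.replicate (m + 1) 0, ⟨by simp, exp_many (m + 1)⟩, fun h => ?_⟩
  obtain ⟨-, V, hV, G, h⟩ := h
  exact not_connReg G 78 (List.replicate m 0) h

end Pool.Agent.Results.MP_21018d_co.NotConn
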