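import Pool.Agent.H60.HRc
import Pool.Agent.H60.HRd

set_option autoImplicit false

namespace Pool.Agent.Results.MP_21018d_co.SixTwo

open Pool.Agent.H60.HR

theorem result : ∃ a ∈ HRCinf 2, a ∉ HRCexp 2 :=
  ⟨[6, 2], ⟨rfl, tor_many⟩, fun ⟨_, ε, hε, h⟩ => not_exp_six ε hε h⟩

end Pool.Agent.Results.MP_21018d_co.SixTwo
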